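import Pool.Agent.H76.GU.Targets

/-!
Row PER of the board gu_modules (MP_52e316_nt): the constant term with the period one.
-/

set_option autoImplicit false

namespace Pool.Agent.H64.GU

open MeasureTheory Set Pool.Agent.H34.GM Pool.Agent.H34.GZ Pool.Agent.H34.GU Pool.Agent.H76.GU

/-! ### periodic functions -/

/-- the torus -/
abbrev Tor (m : ℕ) := Fin m → Fin m → UnitAddCircle

/-- the projection to the torus -/
def prj {m : ℕ} (u : V m) : Tor m := fun i j => (u i j : UnitAddCircle)

/-- a section -/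
noncomputable def sec {m : ℕ} (t : Tor m) : V m := fun i j =>
  (AddCircle.equivIoc 1 0 (t i j) : ℝ)

/-- multiplication by `N` -/
def mul {m : ℕ} (N : ℕ) (t : Tor m) : Tor m := fun i j => N • t i j

/-- the measure on the torus -/
noncomputable def mT (m : ℕ) : Measure (Tor m) :=
  Measure.pi fun _ : Fin m => Measure.pi fun _ : Fin m => (volume : Measure UnitAddCircle)

/-- the measure on the cube -/
noncomputable def mC (m : ℕ) : Measure (V m) :=
  Measure.pi fun _ : Fin m => Measure.pi fun _ : Fin m =>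
    (volume : Measure ℝ).restrict (Ioc 0 (0 + 1))

theorem mC_eq (m : ℕ) : (volume : Measure (V m)).restrict (Icc (0 : V m) 1) = mC m := by
  have h1 : Icc (0 : V m) 1 = Set.univ.pi fun _ : Fin m => Icc (0 : Fin m → ℝ) 1 := by
    rw [Set.pi_univ_Icc]
    rfl
  have h2 : (volume : Measure (Fin m → ℝ)).restrict (Icc (0 : Fin m → ℝ) 1) =
      Measure.pi fun _ : Fin m => (volume : Measure ℝ).restrict (Ioc 0 (0 + 1)) := by
    have h3 : (Set.univ.pi fun _ : Fin m => Ioc (0 : ℝ) (0 + 1)) =ᵐ[volume]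
        Icc (0 : Fin m → ℝ) 1 := by
      have h4 := Measure.univ_pi_Ioc_ae_eq_Icc (μ := fun _ : Fin m => (volume : Measure ℝ))
        (f := fun _ => (0 : ℝ)) (g := fun _ => (0 + 1 : ℝ))
      rw [zero_add] at h4 ⊢
      exact h4
    rw [← Measure.restrict_congr_set h3]
    exact Measure.restrict_pi_pi (fun _ : Fin m => (volume : Measure ℝ)) fun _ => Ioc 0 (0 + 1)
  rw [h1]
  have h5 : (volume : Measure (V m)).restrict
      (Set.univ.pi fun _ : Fin m => Icc (0 : Fin m → ℝ) 1) =
      Measure.pi fun _ : Fin m => (volume : Measure (Fin m → ℝ)).restrict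
        (Icc (0 : Fin m → ℝ) 1) :=
    Measure.restrict_pi_pi (fun _ : Fin m => (volume : Measure (Fin m → ℝ)))
      fun _ => Icc (0 : Fin m → ℝ) 1
  rw [h5, mC, h2]

theorem mp_prj (m : ℕ) : MeasurePreserving (prj : V m → Tor m) (mC m) (mT m) :=
  measurePreserving_pi _ _ fun _ => measurePreserving_pi _ _ fun _ =>
    UnitAddCircle.measurePreserving_mk 0

theorem mp_mul (m : ℕ) {N : ℕ} (hN : 1 < N) : MeasurePreserving (mul N : Tor m → Tor m)
    (mT m) (mT m) :=
  measurePreserving_pi _ _ fun _ => measurePreserving_pi _ _ fun _ =>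
    (AddCircle.ergodic_nsmul hN).toMeasurePreserving

theorem meas_sec (m : ℕ) : Measurable (sec : Tor m → V m) := by
  refine measurable_pi_lambda _ fun i => measurable_pi_lambda _ fun j => ?_
  have h1 : Measurable fun t : UnitAddCircle =>
      ((AddCircle.equivIoc 1 0 t : Ioc (0 : ℝ) (0 + 1)) : ℝ) :=
    measurable_subtype_coe.comp (AddCircle.measurableEquivIoc 1 0).measurable
  exact h1.comp ((measurable_pi_apply j).comp (measurable_pi_apply i))

theorem int_eq {α β : Type*} [MeasurableSpace α] [MeasurableSpace β] {μ : Measure α}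
    {ν : Measure β} {f : α → β} (hf : MeasurePreserving f μ ν) {G : β → ℂ}
    (hG : Measurable G) :
    ∫ x, G (f x) ∂μ = ∫ y, G y ∂ν := by
  rw [← hf.map_eq]
  exact (integral_map hf.measurable.aemeasurable hG.aestronglyMeasurable).symm

/-- the section of the projection differs by an integer point -/
theorem sec_prj {m : ℕ} (u : V m) : ∃ n : Fin m → Fin m → ℤ, sec (prj u) =
    fun i j => (n i j : ℝ) + u i j := by
  have h1 : ∀ i j, ∃ n : ℤ, sec (prj u) i j = (n : ℝ) + u i j := by
    intro i j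
    have h2 : ((sec (prj u) i j : ℝ) : UnitAddCircle) = (u i j : UnitAddCircle) :=
      AddCircle.coe_equivIoc (p := (1 : ℝ)) (a := 0) (y := (u i j : UnitAddCircle))
    have h3 : ((sec (prj u) i j - u i j : ℝ) : UnitAddCircle) = 0 := by
      rw [AddCircle.coe_sub, h2, sub_self]
    obtain ⟨n, hn⟩ := (AddCircle.coe_eq_zero_iff (1 : ℝ)).1 h3
    refine ⟨n, ?_⟩
    rw [zsmul_eq_mul, mul_one] at hn
    linarith
  choose n hn using h1
  exact ⟨n, funext fun i => funext fun j => hn i j⟩

theorem periodic {m : ℕ} (φ : V m → ℂ) (hc : Continuous φ)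
    (hp : ∀ (n : Fin m → Fin m → ℤ) (u : V m), φ (fun i j => (n i j : ℝ) + u i j) = φ u)
    {N : ℕ} (hN : 1 < N) :
    ∫ u in Icc (0 : V m) 1, φ ((N : ℝ) • u) = ∫ u in Icc (0 : V m) 1, φ u := by
  have hm : Measurable fun t : Tor m => φ (sec t) := hc.measurable.comp (meas_sec m)
  have h1 : ∀ u : V m, φ u = φ (sec (prj u)) := by
    intro u
    obtain ⟨n, hn⟩ := sec_prj u
    rw [hn, hp]
  have h2 : ∀ u : V m, prj ((N : ℝ) • u) = mul N (prj u) := by
    intro u
    funext i j
    change (((N : ℝ) * u i j : ℝ) : UnitAddCircle) = N • ((u i j : ℝ) : UnitAddCircle)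
    rw [← nsmul_eq_mul]
    rfl
  rw [mC_eq]
  calc ∫ u, φ ((N : ℝ) • u) ∂(mC m) = ∫ u, φ (sec (mul N (prj u))) ∂(mC m) := by
        refine integral_congr_ae (Filter.Eventually.of_forall fun u => ?_)
        change φ ((N : ℝ) • u) = φ (sec (mul N (prj u)))
        rw [h1, h2]
    _ = ∫ t, φ (sec (mul N t)) ∂(mT m) :=
        int_eq (mp_prj m) (hm.comp (mp_mul m hN).measurable)
    _ = ∫ t, φ (sec t) ∂(mT m) := int_eq (mp_mul m hN) hm
    _ = ∫ u, φ (sec (prj u)) ∂(mC m) := (int_eq (mp_prj m) hm).symm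
    _ = ∫ u, φ u ∂(mC m) := by
        refine integral_congr_ae (Filter.Eventually.of_forall fun u => ?_)
        exact (h1 u).symm

/-! ### the unipotent matrices -/

theorem nk_add {m : ℕ} (k : ℕ) (u v : V m) : nk k u + nk k v = nk k (u + v) := by
  ext i j
  by_cases h : (j : ℕ) < k ∧ k ≤ (i : ℕ)
  · simp [nk, h]
  · simp [nk, h]

theorem nk_mul {m : ℕ} (k : ℕ) (u v : V m) : nk k u * nk k v = 0 := by
  ext i j
  rw [Matrix.mul_apply]
  refine Finset.sum_eq_zero fun l _ => ?_
  by_cases h : (l : ℕ) < k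
  · have h1 : nk k v l j = 0 := by
      have h2 : ¬ ((j : ℕ) < k ∧ k ≤ (l : ℕ)) := by omega
      simp [nk, h2]
    rw [h1, mul_zero]
  · have h1 : nk k u i l = 0 := by
      have h2 : ¬ ((l : ℕ) < k ∧ k ≤ (i : ℕ)) := by omega
      simp [nk, h2]
    rw [h1, zero_mul]

theorem one_mul_one {m : ℕ} (k : ℕ) (u v : V m) :
    (1 + nk k u) * (1 + nk k v) = 1 + nk k (u + v) := by
  rw [← nk_add, add_mul, one_mul, mul_add, mul_one, nk_mul, add_zero]
  abel

theorem nk_zero {m : ℕ} (k : ℕ) : nk k (0 : V m) = 0 := by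
  ext i j
  simp [nk]

theorem det_ne {m : ℕ} (k : ℕ) (u : V m) (g : Mat m) (hg : g.det ≠ 0) :
    ((1 + nk k u) * g).det ≠ 0 := by
  have h1 : (1 + nk k u) * (1 + nk k (-u)) = 1 := by
    rw [one_mul_one, add_neg_cancel, nk_zero, add_zero]
  have h2 : (1 + nk k u).det * (1 + nk k (-u)).det = 1 := by
    rw [← Matrix.det_mul, h1, Matrix.det_one]
  rw [Matrix.det_mul]
  exact mul_ne_zero (left_ne_zero_of_mul_eq_one h2) hg

/-- an integer unipotent matrix -/
def zk {m : ℕ} (k : ℕ) (n : Fin m → Fin m → ℤ) : ZM m := fun i j =>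
  if (j : ℕ) < k ∧ k ≤ (i : ℕ) then n i j else (1 : ZM m) i j

theorem cR_zk {m : ℕ} (k : ℕ) (n : Fin m → Fin m → ℤ) :
    cR (zk k n) = 1 + nk k (fun i j => (n i j : ℝ)) := by
  ext i j
  by_cases h : (j : ℕ) < k ∧ k ≤ (i : ℕ)
  · have hne : i ≠ j := by
      rintro rfl
      omega
    simp [cR, zk, nk, h, hne]
  · have e1 : zk k n i j = (1 : ZM m) i j := by
      simp only [zk]
      exact if_neg h
    have e2 : nk k (fun i j => (n i j : ℝ)) i j = 0 := by
      simp only [nk, Matrix.of_apply]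
      exact if_neg h
    by_cases hij : i = j
    · have e3 : (1 : ZM m) i j = 1 := by rw [hij, Matrix.one_apply_eq]
      have e4 : (1 : Mat m) i j = 1 := by rw [hij, Matrix.one_apply_eq]
      simp only [cR, Matrix.add_apply, e2, e4]
      simp [e1, e3]
    · have e3 : (1 : ZM m) i j = 0 := Matrix.one_apply_ne hij
      have e4 : (1 : Mat m) i j = 0 := Matrix.one_apply_ne hij
      simp only [cR, Matrix.add_apply, e2, e4]
      simp [e1, e3]

theorem cR_inj {m : ℕ} {α β : ZM m} (h : cR α = cR β) : α = β := by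
  ext i j
  have h1 : cR α i j = cR β i j := by rw [h]
  simpa [cR] using h1

theorem cR_mul {m : ℕ} (α β : ZM m) : cR (α * β) = cR α * cR β := by
  have h1 : ∀ γ : ZM m, cR γ = (Int.castRingHom ℝ).mapMatrix γ := fun _ => rfl
  simp only [h1, map_mul]

theorem cR_one {m : ℕ} : cR (1 : ZM m) = 1 := by
  have h1 : ∀ γ : ZM m, cR γ = (Int.castRingHom ℝ).mapMatrix γ := fun _ => rfl
  simp only [h1, map_one]

theorem zk_mul {m : ℕ} (k : ℕ) (n : Fin m → Fin m → ℤ) :
    zk k n * zk k (-n) = 1 := by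
  refine cR_inj ?_
  rw [cR_mul, cR_zk, cR_zk, one_mul_one, cR_one]
  have h1 : ((fun i j => (n i j : ℝ)) : V m) + (fun i j => (((-n) i j : ℤ) : ℝ)) = 0 := by
    funext i j
    simp
  rw [h1, nk_zero, add_zero]

theorem zk_unit {m : ℕ} (k : ℕ) (n : Fin m → Fin m → ℤ) : IsUnit (zk k n) := by
  have h1 := zk_mul k (-n)
  rw [neg_neg] at h1
  exact ⟨⟨zk k n, zk k (-n), zk_mul k n, h1⟩, rfl⟩

theorem pf_PER : T_PER := by
  intro m N _ T F lam mu hF k hk hkm y hy g hg
  have hdet : ∀ u : V m, ((1 + nk k u) * g).det ≠ 0 := fun u => det_ne k u g hg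
  have hcont : Continuous fun u : V m => F ((1 + nk k u) * g) y := by
    have h1 : Continuous fun u : V m => (1 + nk k u) * g := by
      have h2 : Continuous fun u : V m => nk k u := by
        refine continuous_matrix fun i j => ?_
        by_cases h : (j : ℕ) < k ∧ k ≤ (i : ℕ)
        · simp only [nk, h, Matrix.of_apply, and_self, if_true]
          exact (continuous_apply j).comp (continuous_apply i)
        · simp only [nk, h, Matrix.of_apply, if_false]
          exact continuous_const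
      exact (continuous_const.add h2).matrix_mul continuous_const
    exact (hF.cont y).comp_continuous h1 hdet
  have hper : ∀ (n : Fin m → Fin m → ℤ) (u : V m),
      F ((1 + nk k (fun i j => (n i j : ℝ) + u i j)) * g) y = F ((1 + nk k u) * g) y := by
    intro n u
    have h1 := hF.auto (zk k n) (zk_unit k n) ((1 + nk k u) * g) y (hdet u)
    have h2 : ac N (zk k n) y = y := hy _ fun i j h => by simp [zk, h]
    rw [h2, ← Matrix.mul_assoc, cR_zk, one_mul_one] at h1
    exact h1
  have hcusp := hF.cusp k hk hkm g y hg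
  rcases Nat.lt_or_ge 1 N with hN | hN
  · have h1 := periodic (fun u : V m => F ((1 + nk k u) * g) y) hcont hper hN
    rw [← h1, ← hcusp]
    refine integral_congr_ae (Filter.Eventually.of_forall fun u => ?_)
    change F ((1 + nk k ((N : ℝ) • u)) * g) y = F ((1 + (N : ℝ) • nk k u) * g) y
    have h2 : nk k ((N : ℝ) • u) = (N : ℝ) • nk k u := by
      ext i j
      by_cases h : (j : ℕ) < k ∧ k ≤ (i : ℕ)
      · simp [nk, h]
      · simp [nk, h]
    rw [h2]
  · have h0 : N = 1 := le_antisymm hN (Nat.one_le_iff_ne_zero.2 (NeZero.ne N))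
    rw [← hcusp]
    refine integral_congr_ae (Filter.Eventually.of_forall fun u => ?_)
    change F ((1 + nk k u) * g) y = F ((1 + (N : ℝ) • nk k u) * g) y
    rw [h0, Nat.cast_one, one_smul]

end Pool.Agent.H64.GU
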